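import Pool.Agent.Helper78.MG.Goals
import Mathlib.LinearAlgebra.Dimension.Constructions
import Mathlib.LinearAlgebra.Dimension.Finite
import Mathlib.LinearAlgebra.FiniteDimensional.Lemmas
import Mathlib.Algebra.Field.ZMod

namespace Pool.Agent.Helper38.MG

theorem tri : Pool.Agent.Helper78.MG.TriStmt := by
  classical
  intro Y d N s h hs
  set I : Finset (Fin N) :=
    Finset.univ.filter fun i : Fin N => ∃ y, h i y = 1 ∧ ∀ j < i, h j y = 0 with hI
  have hmem : ∀ i : I, ∃ y, h i.1 y = 1 ∧ ∀ j < i.1, h j y = 0 := fun i =>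
    (Finset.mem_filter.1 i.2).2
  set W := Submodule.span (ZMod 2) (Set.range s) with hW
  have hfin : Module.Finite (ZMod 2) W := by
    rw [hW]
    exact Module.Finite.span_of_finite (ZMod 2) (Set.finite_range s)
  have hli : LinearIndependent (ZMod 2) (fun i : I => h i.1) := by
    rw [Fintype.linearIndependent_iff]
    intro g hg
    by_contra hne
    push Not at hne
    obtain ⟨i0, hi0⟩ := hne
    have hne' : (Finset.univ.filter fun i : I => g i ≠ 0).Nonempty :=
      ⟨i0, by simp [hi0]⟩
    obtain ⟨i, hi, hmax⟩ := Finset.exists_max_image _ (fun i : I => i.1) hne'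
    obtain ⟨y, hy1, hy0⟩ := hmem i
    have hgi : g i ≠ 0 := (Finset.mem_filter.1 hi).2
    have hev := congrFun hg y
    rw [Finset.sum_apply, Finset.sum_eq_single i] at hev
    · simp only [Pi.smul_apply, hy1, smul_eq_mul, mul_one, Pi.zero_apply] at hev
      exact hgi hev
    · intro j _ hji
      by_cases hgj : g j = 0
      · simp [hgj]
      · have hle : j.1 ≤ i.1 := hmax j (by simp [hgj])
        have hlt : j.1 < i.1 := lt_of_le_of_ne hle fun e => hji (Subtype.ext e)
        simp [hy0 j.1 hlt]
    · intro hni
      exact absurd (Finset.mem_univ i) hni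
  have hli' : LinearIndependent (ZMod 2) (fun i : I => (⟨h i.1, hs i.1⟩ : W)) := by
    apply LinearIndependent.of_comp W.subtype
    exact hli
  have h1 := hli'.fintype_card_le_finrank
  have h2 : Module.finrank (ZMod 2) W ≤ Fintype.card (Fin d) := finrank_range_le_card s
  rw [Fintype.card_fin] at h2
  rw [Fintype.card_coe] at h1
  exact h1.trans h2

end Pool.Agent.Helper38.MG
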